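import Pool.Agent.H211R2.SCDC.Strong4

set_option autoImplicit false
set_option linter.unusedSectionVars false
set_option linter.unusedSimpArgs false

/-!
Strong circuit quadruple covers: for every circuit C of a bridgeless cubic multigraph there are
eight even subgraphs covering every edge of C exactly twice and every other edge exactly four
times.
-/

open Finset Matrix

namespace Pool.Agent.H211R2.SCDC

open Pool.Agent.Helper347.Sab hiding F2
open Pool.Agent.Helper998.Near (Rch join mem_decomp rch_symm)
open Pool.Agent.H164R2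
open Pool.Agent.Helper879.ECD (F2 IsFlow cn f2_add_self f2_cases)

variable {V E : Type} [Fintype V] [DecidableEq V] [Fintype E] [DecidableEq E]

/-- values of a function at the two ends of an edge -/
theorem ends_sum (G : MGraph V E) (α β : E → V) (hne : ∀ e, α e ≠ β e)
    (hends : ∀ e, G.ends e = s(α e, β e)) (c : V → F2) (e : E) :
    c (α e) + c (β e) = ∑ v, if v ∈ G.ends e then c v else 0 := by
  rw [← sum_filter]
  have h : (univ.filter fun v => v ∈ G.ends e) = {α e, β e} := by
    ext v
    simp [hends]
  rw [h, sum_pair (hne e)]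

/-- even sets are flows -/
theorem flow_of_ev (G : MGraph V E) (α β : E → V) (hne : ∀ e, α e ≠ β e)
    (hends : ∀ e, G.ends e = s(α e, β e)) (D : Finset E) (hD : Ev G D) (c : V → F2) :
    ∑ e, (if e ∈ D then (1 : F2) else 0) * (c (α e) + c (β e)) = 0 := by
  have h1 : ∀ e ∈ (univ : Finset E), (if e ∈ D then (1 : F2) else 0) * (c (α e) + c (β e)) =
      ∑ v, (if e ∈ D ∧ v ∈ G.ends e then c v else 0) := by
    intro e _
    rw [ends_sum G α β hne hends, mul_sum]
    refine sum_congr rfl fun v _ => ?_
    by_cases h2 : e ∈ D <;> by_cases h3 : v ∈ G.ends e <;> simp [h2, h3]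
  rw [sum_congr rfl h1, sum_comm]
  refine sum_eq_zero fun v _ => ?_
  have h2 : ∑ e, (if e ∈ D ∧ v ∈ G.ends e then c v else 0) = ((dg G D v : ℕ) : F2) * c v := by
    unfold dg
    have h3 : (D.filter fun e => v ∈ G.ends e) = univ.filter fun e => e ∈ D ∧ v ∈ G.ends e := by
      ext e; simp
    rw [h3, card_filter, Nat.cast_sum, sum_mul]
    refine sum_congr rfl fun e _ => ?_
    by_cases h4 : e ∈ D ∧ v ∈ G.ends e <;> simp [h4]
  rw [h2, (Pool.Agent.Helper998.Near.even_iff_cast _).1 (hD v), zero_mul]

/-- For every circuit C of a bridgeless graph in which the vertices of C have degree three there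
are even sets A, B, N covering all edges off C, with N disjoint from C. -/
theorem three_even (G : MGraph V E) (hG : IsCubic G) (hb : ∀ e, ∃ X, IsCircuit G X ∧ e ∈ X)
    (C : Finset E) (hC : IsCircuit G C) :
    ∃ A B N : Finset E, Ev G A ∧ Ev G B ∧ Ev G N ∧ Disjoint N C ∧
      ∀ e, e ∉ C → e ∈ A ∨ e ∈ B ∨ e ∈ N := by
  classical
  obtain ⟨e0, he0⟩ := hC.1
  obtain ⟨p0, p1, hp01, hends0⟩ := exists_ends G e0
  have hp0 : dg G C p0 = 2 := (hC.2.1 p0).resolve_left (by
    have := dg_pos_of_mem (G := G) he0 (show p0 ∈ G.ends e0 by rw [hends0]; simp); omega)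
  choose α β hne hends using fun e => exists_ends G e
  let ρ : V → V := fun v => if dg G C v = 2 then p0 else v
  have hρ1 : ∀ v, dg G C v = 2 → ρ v = p0 := fun v hv => if_pos hv
  have hρ2 : ∀ v, dg G C v = 0 → ρ v = v := fun v hv => if_neg (by omega)
  have hρ3 : ∀ u v, dg G C v = 0 → (ρ u = v ↔ u = v) := by
    intro u v hv
    rcases hC.2.1 u with h | h
    · rw [hρ2 u h]
    · rw [hρ1 u h]
      constructor
      · intro h2; rw [← h2, hp0] at hv; omega
      · intro h2; rw [h2, hv] at h; omega
  have hcut : ∀ X : Finset V, cn (fun e => ρ (α e)) (fun e => ρ (β e)) univ X ≠ 1 := by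
    intro X hX
    unfold cn at hX
    rw [card_eq_one] at hX
    obtain ⟨f, hf⟩ := hX
    have hmem : ∀ e, ¬ (ρ (α e) ∈ X ↔ ρ (β e) ∈ X) ↔ e = f := by
      intro e
      have : e ∈ univ.filter (fun e => ¬ (ρ (α e) ∈ X ↔ ρ (β e) ∈ X)) ↔ e ∈ ({f} : Finset E) := by
        rw [hf]
      simpa using this
    obtain ⟨D, hD, hfD⟩ := hb f
    have hDe : Ev G D := Pool.Agent.Helper998.Near.ev_circuit G D hD
    have h1 := flow_of_ev G α β hne hends D hDe (fun v => if ρ v ∈ X then 1 else 0)
    have h2 : ∀ e ∈ (univ : Finset E), (if e ∈ D then (1 : F2) else 0) *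
        ((if ρ (α e) ∈ X then (1 : F2) else 0) + (if ρ (β e) ∈ X then 1 else 0)) =
        if e = f then 1 else 0 := by
      intro e _
      by_cases he : e = f
      · rw [if_pos he]
        have h3 := (hmem e).2 he
        rw [he] at h3 ⊢
        rw [if_pos hfD, one_mul]
        by_cases h4 : ρ (α f) ∈ X
        · have h5 : ρ (β f) ∉ X := fun h5 => h3 ⟨fun _ => h5, fun _ => h4⟩
          simp [h4, h5]
        · have h5 : ρ (β f) ∈ X := by
            by_contra h5; exact h3 ⟨fun h => absurd h h4, fun h => absurd h h5⟩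
          simp [h4, h5]
      · rw [if_neg he]
        have h3 := not_not.1 (fun h => he ((hmem e).1 h))
        by_cases h4 : ρ (α e) ∈ X
        · simp only [h4, h3.1 h4, if_true]
          rw [f2_add_self, mul_zero]
        · have h5 : ρ (β e) ∉ X := fun h => h4 (h3.2 h)
          simp [h4, h5]
    rw [sum_congr rfl h2, sum_ite_eq', if_pos (mem_univ _)] at h1
    exact absurd h1 (by decide)
  obtain ⟨ψ, hnz, hfl, hz⟩ := exists_flow8c _ (fun e => ρ (α e)) (fun e => ρ (β e)) p0 rfl hcut
  have hnotC : ∀ v, dg G C v = 0 → ∀ e, v ∈ G.ends e → e ∉ C := by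
    intro v hv e he h
    have := dg_pos_of_mem (G := G) h he
    omega
  obtain ⟨M, hM⟩ : ∃ M : Fin 3 → Finset E, ∀ i e, e ∈ M i ↔ (e ∉ C ∧ ψ i e ≠ 0) :=
    ⟨fun i => univ.filter fun e => e ∉ C ∧ ψ i e ≠ 0, fun i e => by simp⟩
  have hMC : ∀ i, Disjoint C (M i) := by
    intro i
    rw [disjoint_left]
    intro e h1 h2
    exact ((hM i e).1 h2).1 h1
  have hMe : ∀ i v, dg G C v = 0 → Even (dg G (M i) v) := by
    intro i v hv
    rw [Pool.Agent.Helper998.Near.even_iff_cast]
    have h1 := hfl i (fun w => if w = v then 1 else 0)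
    have h2 : ∑ e, ψ i e * ((if ρ (α e) = v then (1 : F2) else 0) +
        (if ρ (β e) = v then 1 else 0)) = ((dg G (M i) v : ℕ) : F2) := by
      unfold dg
      have h3 : ((M i).filter fun e => v ∈ G.ends e) =
          univ.filter fun e => e ∈ M i ∧ v ∈ G.ends e := by
        ext e; simp
      rw [h3, card_filter, Nat.cast_sum]
      refine sum_congr rfl fun e _ => ?_
      have h4 : v ∈ G.ends e ↔ (v = α e ∨ v = β e) := by rw [hends]; simp
      have h5 : (ρ (α e) = v) ↔ α e = v := hρ3 _ _ hv
      have h6 : (ρ (β e) = v) ↔ β e = v := hρ3 _ _ hv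
      simp only [h5, h6]
      by_cases h7 : v ∈ G.ends e
      · have h8 := hnotC v hv e h7
        have h9 : e ∈ M i ↔ ψ i e ≠ 0 := by rw [hM]; tauto
        have h10 : (if α e = v then (1 : F2) else 0) + (if β e = v then 1 else 0) = 1 := by
          rcases h4.1 h7 with h | h
          · rw [if_pos h.symm, if_neg (by rw [h]; exact (hne e).symm), add_zero]
          · rw [if_neg (by rw [h]; exact hne e), if_pos h.symm, zero_add]
        rw [h10, mul_one]
        rcases f2_cases (ψ i e) with h | h
        · have h11 : e ∉ M i := by rw [h9, h]; simp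
          simp [h11, h]
        · have h11 : e ∈ M i := by rw [h9, h]; simp
          simp [h11, h7, h]
      · have h8 : α e ≠ v := fun h => h7 (h4.2 (Or.inl h.symm))
        have h9 : β e ≠ v := fun h => h7 (h4.2 (Or.inr h.symm))
        simp [h8, h9, h7]
    rw [← h2]
    exact h1
  obtain ⟨J0, hJ0, hE0⟩ := Pool.Agent.Results.MP_e720fa_co.ColourableComplement.circ_complete
    G C (M 0) hC (hMC 0) (hMe 0)
  obtain ⟨J1, hJ1, hE1⟩ := Pool.Agent.Results.MP_e720fa_co.ColourableComplement.circ_complete
    G C (M 1) hC (hMC 1) (hMe 1)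
  refine ⟨M 0 ∪ J0, M 1 ∪ J1, M 2, hE0, hE1, ?_, (hMC 2).symm, ?_⟩
  · intro v
    rcases hC.2.1 v with h | h
    · exact hMe 2 v h
    · have h1 : dg G (M 2) v = 0 := by
        unfold dg
        rw [card_eq_zero, filter_eq_empty_iff]
        intro e he hve
        apply ((hM 2 e).1 he).2
        apply hz
        have h4 : v = α e ∨ v = β e := by
          have := hve
          rw [hends] at this
          simpa using this
        rcases h4 with h5 | h5
        · left; show ρ (α e) = p0; rw [← h5]; exact hρ1 v h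
        · right; show ρ (β e) = p0; rw [← h5]; exact hρ1 v h
      rw [h1]
      decide
  · intro e he
    rcases hnz e with h | h | h
    · exact Or.inl (mem_union_left _ ((hM 0 e).2 ⟨he, h⟩))
    · exact Or.inr (Or.inl (mem_union_left _ ((hM 1 e).2 ⟨he, h⟩)))
    · exact Or.inr (Or.inr ((hM 2 e).2 ⟨he, h⟩))

/-- Eight even subgraphs covering every edge of the circuit C twice and every other edge four
times. -/
theorem eight (G : MGraph V E) (hG : IsCubic G) (hb : ∀ e, ∃ X, IsCircuit G X ∧ e ∈ X)
    (C : Finset E) (hC : IsCircuit G C) :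
    ∃ Z : Fin 4 × Fin 2 → Finset E, (∀ i, Ev G (Z i)) ∧
      (∀ e ∈ C, (univ.filter fun i => e ∈ Z i).card = 2) ∧
      (∀ e, e ∉ C → (univ.filter fun i => e ∈ Z i).card = 4) := by
  classical
  obtain ⟨A, B, N, hA, hB, hN, hNC, hABN⟩ := three_even G hG hb C hC
  obtain ⟨Y, hY, _, hY1, hY2⟩ := strong_edges4 G univ C N (subset_univ _)
    (fun v => (hG v).le) hC.2.1 (fun f hf => absurd (mem_univ _) hf) (by
    intro e _ he
    obtain ⟨A', a1, a2, a3⟩ := bridge_flow G C hC A hA e
    obtain ⟨B', b1, b2, b3⟩ := bridge_flow G C hC B hB e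
    refine ⟨A', B', a1, b1, a2, b2, fun f hf hfN hsb => ?_⟩
    rcases hABN f hf with h | h | h
    · exact Or.inl (a3 f hf hsb h)
    · exact Or.inr (b3 f hf hsb h)
    · exact absurd h hfN)
  refine ⟨fun p => if p.2 = 0 then Y p.1 else symmDiff (Y p.1) N, ?_, ?_, ?_⟩
  · intro p
    show Ev G (if p.2 = 0 then Y p.1 else symmDiff (Y p.1) N)
    split_ifs
    · exact hY _
    · exact ev_symmDiff (hY _) hN
  · intro e he
    have heN : e ∉ N := fun h => disjoint_left.1 hNC h he
    have h1 : (univ.filter fun p : Fin 4 × Fin 2 =>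
        e ∈ (if p.2 = 0 then Y p.1 else symmDiff (Y p.1) N)) =
        (univ.filter fun i => e ∈ Y i) ×ˢ univ := by
      ext p
      simp only [mem_filter, mem_univ, true_and, mem_product, and_true]
      split_ifs
      · rfl
      · rw [mem_symmDiff]
        tauto
    rw [h1, card_product, hY1 e he, card_univ, Fintype.card_fin]
  · intro e he
    by_cases heN : e ∈ N
    · have h1 : (univ.filter fun p : Fin 4 × Fin 2 =>
          e ∈ (if p.2 = 0 then Y p.1 else symmDiff (Y p.1) N)) =
          univ.image fun i : Fin 4 => (i, if e ∈ Y i then (0 : Fin 2) else 1) := by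
        ext ⟨i, j⟩
        simp only [mem_filter, mem_univ, true_and, mem_image, Prod.mk.injEq]
        constructor
        · intro h
          refine ⟨i, rfl, ?_⟩
          by_cases hj : j = 0
          · rw [if_pos hj] at h
            rw [if_pos h, hj]
          · rw [if_neg hj, mem_symmDiff] at h
            have h2 : e ∉ Y i := by tauto
            rw [if_neg h2]
            have : j = 1 := by
              revert hj; revert j; decide
            exact this.symm
        · rintro ⟨i', rfl, rfl⟩
          by_cases h2 : e ∈ Y i'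
          · simp [h2]
          · simp [h2, mem_symmDiff, heN]
      rw [h1, card_image_of_injective _ (fun x y h => (Prod.mk.inj h).1), card_univ,
        Fintype.card_fin]
    · have h1 : (univ.filter fun p : Fin 4 × Fin 2 =>
          e ∈ (if p.2 = 0 then Y p.1 else symmDiff (Y p.1) N)) =
          (univ.filter fun i => e ∈ Y i) ×ˢ univ := by
        ext p
        simp only [mem_filter, mem_univ, true_and, mem_product, and_true]
        split_ifs
        · rfl
        · rw [mem_symmDiff]
          tauto
      rw [h1, card_product, hY2 e (mem_univ _) he heN, card_univ, Fintype.card_fin]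

/-- union of decompositions -/
theorem decomp_all (G : MGraph V E) (hG : IsCubic G) {ι : Type} (s : Finset ι)
    (Z : ι → Finset E) (hZ : ∀ i, Ev G (Z i)) :
    ∃ F : Multiset (Finset E), (∀ X ∈ F, IsCircuit G X) ∧
      ∀ e, F.countP (fun X => e ∈ X) = (s.filter fun i => e ∈ Z i).card := by
  classical
  induction s using Finset.induction_on with
  | empty => exact ⟨0, by simp, by simp⟩
  | insert i s hi ih =>
    obtain ⟨F, h1, h2⟩ := ih
    obtain ⟨F', a1, a2⟩ := decompose G _ (Z i) le_rfl (by
      intro v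
      have b1 := hZ i v
      have b2 := dg_mono (G := G) (subset_univ (Z i)) v
      rw [hG v] at b2
      rw [Nat.even_iff] at b1
      omega)
    refine ⟨F' + F, ?_, ?_⟩
    · intro X hX
      rcases Multiset.mem_add.1 hX with h | h
      · exact a1 X h
      · exact h1 X h
    · intro e
      rw [Multiset.countP_add, a2, h2, filter_insert]
      split_ifs with h
      · rw [card_insert_of_notMem (fun h3 => hi (mem_filter.1 h3).1)]
        omega
      · omega

/-- Strong circuit quadruple covers. -/
theorem quadruple (G : MGraph V E) (hG : IsCubic G) (hb : ∀ e, ∃ X, IsCircuit G X ∧ e ∈ X)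
    (C : Finset E) (hC : IsCircuit G C) :
    ∃ F : Multiset (Finset E), (∀ X ∈ F, IsCircuit G X) ∧
      (∀ e, F.countP (fun X => e ∈ X) = 4) ∧ 2 ≤ F.count C := by
  classical
  obtain ⟨Z, hZ, h1, h2⟩ := eight G hG hb C hC
  obtain ⟨F, f1, f2⟩ := decomp_all G hG univ Z hZ
  refine ⟨C ::ₘ C ::ₘ F, ?_, ?_, ?_⟩
  · intro X hX
    rw [Multiset.mem_cons, Multiset.mem_cons] at hX
    rcases hX with h | h | h
    · rw [h]; exact hC
    · rw [h]; exact hC
    · exact f1 X h
  · intro e
    rw [Multiset.countP_cons, Multiset.countP_cons, f2]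
    by_cases he : e ∈ C
    · rw [h1 e he, if_pos he]
    · rw [h2 e he, if_neg he]
  · rw [Multiset.count_cons_self, Multiset.count_cons_self]
    omega

end Pool.Agent.H211R2.SCDC
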