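import Pool.Agent.H211R2.SCDC.RankC

set_option autoImplicit false
set_option linter.unusedSectionVars false
set_option linter.unusedSimpArgs false

/-!
Degenerate eight-flow theorem: a bridgeless graph has, for every vertex c, a nowhere-zero flow over
the elementary abelian group of order eight whose third coordinate vanishes at c.
-/

namespace Pool.Agent.H211R2.SCDC

open Finset
open Pool.Agent.Helper879.ECD (sp Ind sp_mono mem_sp mem_sp_exch sp_exch F2 IsFlow inc fnl
  fnl_single fnl_inc cn f2_add_self exists_coeff)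

section Flow

variable {W E : Type} [Fintype W] [DecidableEq W] [Fintype E] [DecidableEq E]

/-- from a set spanning the edge set M to a flow supported in M and equal to 1 off the set -/
theorem flow_of_span (a b : E → W) (M T : Finset E)
    (hT : sp F2 (inc a b) T = sp F2 (inc a b) M) (hTM : T ⊆ M) :
    ∃ ψ : E → F2, (∀ e ∈ M, e ∉ T → ψ e = 1) ∧ (∀ e, e ∉ M → ψ e = 0) ∧ IsFlow a b ψ := by
  classical
  have hτ : ∑ e ∈ M, inc a b e ∈ sp F2 (inc a b) M :=
    Submodule.sum_mem _ (fun e he => mem_sp he)
  rw [← hT] at hτ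
  obtain ⟨c, hc⟩ := exists_coeff hτ
  refine ⟨fun e => (if e ∈ M then 1 else 0) + if e ∈ T then c e else 0, ?_, ?_, ?_⟩
  · intro e he he2; simp [he, he2]
  · intro e he
    have h2 : e ∉ T := fun h => he (hTM h)
    simp [he, h2]
  · intro d
    have h1 : ∑ e, ((if e ∈ M then 1 else 0) + if e ∈ T then c e else 0) • inc a b e = 0 := by
      have h2 : ∀ e ∈ (univ : Finset E), ((if e ∈ M then (1 : F2) else 0) +
          if e ∈ T then c e else 0) • inc a b e =
          (if e ∈ M then inc a b e else 0) + if e ∈ T then c e • inc a b e else 0 := by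
        intro e _
        rw [add_smul]
        split_ifs <;> simp
      rw [sum_congr rfl h2, sum_add_distrib, ← sum_filter, ← sum_filter,
        filter_mem_eq_inter, filter_mem_eq_inter, univ_inter, univ_inter, hc]
      ext w; exact f2_add_self _
    have h2 := congrArg (fnl d) h1
    rw [map_sum, map_zero] at h2
    refine Eq.trans ?_ h2
    apply sum_congr rfl
    intro e _
    rw [map_smul, fnl_inc, smul_eq_mul]

/-- the configurations to be packed -/
def cfg (a b : E → W) (c : W) (i : Fin 3) (p : E × Fin 2) : W → F2 :=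
  if p.1 ∈ KE a b c ∨ (i ≠ 2 ∧ p.2 = 0) then inc a b p.1 else 0

theorem flow8c (a b : E → W) (c : W) (h3 : ∀ X : Finset W, cn a b univ X = 0 ∨ 3 ≤ cn a b univ X) :
    ∃ ψ : Fin 3 → E → F2, (∀ e, ψ 0 e ≠ 0 ∨ ψ 1 e ≠ 0 ∨ ψ 2 e ≠ 0) ∧
      (∀ i, IsFlow a b (ψ i)) ∧ ∀ e, (a e = c ∨ b e = c) → ψ 2 e = 0 := by
  classical
  -- edge sets underlying a set of pairs
  obtain ⟨g, hg⟩ : ∃ g : Fin 3 → Finset (E × Fin 2) → Finset E, ∀ i R e, e ∈ g i R ↔
      ∃ j, (e, j) ∈ R ∧ (e ∈ KE a b c ∨ (i ≠ 2 ∧ j = 0)) :=
    ⟨fun i R => univ.filter fun e => ∃ j, (e, j) ∈ R ∧ (e ∈ KE a b c ∨ (i ≠ 2 ∧ j = 0)),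
      fun i R e => by simp⟩
  have hsp : ∀ i R, sp F2 (cfg a b c i) R = sp F2 (inc a b) (g i R) := by
    intro i R
    apply le_antisymm
    · unfold sp
      rw [Submodule.span_le]
      rintro _ ⟨⟨e, j⟩, he, rfl⟩
      show cfg a b c i (e, j) ∈ _
      unfold cfg
      split_ifs with h
      · apply Submodule.subset_span
        exact ⟨e, mem_coe.2 ((hg i R e).2 ⟨j, mem_coe.1 he, h⟩), rfl⟩
      · exact Submodule.zero_mem _
    · unfold sp
      rw [Submodule.span_le]
      rintro _ ⟨e, he, rfl⟩
      obtain ⟨j, h1, h2⟩ := (hg i R e).1 (mem_coe.1 he)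
      apply Submodule.subset_span
      refine ⟨(e, j), mem_coe.2 h1, ?_⟩
      unfold cfg
      rw [if_pos h2]
  have hg01 : ∀ R, g 0 R = g 1 R := by
    intro R
    ext e
    rw [hg, hg]
    simp
  have hgu0 : g 0 univ = univ := by
    ext e
    rw [hg]
    simp
  have hgu2 : g 2 univ = KE a b c := by
    ext e
    rw [hg]
    simp
  obtain ⟨I, hd, hI⟩ := packM (K := Fin 3) (F := F2) (x := cfg a b c) (by
    intro R
    have h1 := rank_condC a b c h3 (g 2 R) (g 0 R \ KE a b c) (by
      intro e he
      obtain ⟨j, _, h2⟩ := (hg 2 R e).1 he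
      simpa using h2) (by
      intro e he
      exact (mem_sdiff.1 he).2)
    have h2 : g 2 R ∪ (g 0 R \ KE a b c) = g 0 R := by
      ext e
      rw [mem_union, mem_sdiff, hg, hg]
      by_cases h : e ∈ KE a b c
      · simp [h]
      · simp [h]
    rw [h2] at h1
    rw [Fin.sum_univ_three, Fin.sum_univ_three]
    rw [hsp 0 univ, hsp 1 univ, hsp 2 univ, hsp 0 R, hsp 1 R, hsp 2 R, ← hg01, ← hg01, hgu0, hgu2]
    simp only [hsp]
    have h4 : 2 * ((KE a b c).filter (fun e => ¬ inc a b e ∈ sp F2 (inc a b) (g 2 R))).card +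
          (univ.filter (fun e => e ∉ KE a b c ∧
            ¬ inc a b e ∈ sp F2 (inc a b) (g 0 R))).card ≤
        (univ.filter (fun p : E × Fin 2 => ∃ i, ¬ cfg a b c i p ∈
          sp F2 (inc a b) (g i R))).card := by
      have h5 : (((KE a b c).filter (fun e => ¬ inc a b e ∈ sp F2 (inc a b) (g 2 R))) ×ˢ
          (univ : Finset (Fin 2))) ∪ ((univ.filter (fun e => e ∉ KE a b c ∧
            ¬ inc a b e ∈ sp F2 (inc a b) (g 0 R))) ×ˢ {0}) ⊆
          (univ.filter (fun p : E × Fin 2 => ∃ i, ¬ cfg a b c i p ∈
          sp F2 (inc a b) (g i R))) := by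
        rintro ⟨e, j⟩ he
        rw [mem_union, mem_product, mem_product, mem_filter, mem_filter] at he
        rw [mem_filter]
        refine ⟨mem_univ _, ?_⟩
        rcases he with he | he
        · refine ⟨2, ?_⟩
          unfold cfg
          rw [if_pos (Or.inl he.1.1)]
          exact he.1.2
        · refine ⟨0, ?_⟩
          unfold cfg
          rw [if_pos (Or.inr ⟨by decide, mem_singleton.1 he.2⟩)]
          exact he.1.2.2
      refine le_trans (le_of_eq ?_) (card_le_card h5)
      rw [card_union_of_disjoint, card_product, card_product, card_univ, Fintype.card_fin,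
        card_singleton]
      · ring
      · rw [disjoint_left]
        rintro ⟨e, j⟩ h6 h7
        rw [mem_product, mem_filter] at h6 h7
        exact h7.1.2.1 h6.1.1
    omega)
  have hspan0 : sp F2 (inc a b) (g 0 (I 0)) = sp F2 (inc a b) univ := by
    rw [← hsp, hI, hsp, hgu0]
  have hspan1 : sp F2 (inc a b) (g 1 (I 1)) = sp F2 (inc a b) univ := by
    rw [← hsp, hI, hsp, ← hg01, hgu0]
  have hspan2 : sp F2 (inc a b) (g 2 (I 2)) = sp F2 (inc a b) (KE a b c) := by
    rw [← hsp, hI, hsp, hgu2]
  obtain ⟨ψ0, p1, p2, p3⟩ := flow_of_span a b univ _ hspan0 (subset_univ _)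
  obtain ⟨ψ1, q1, q2, q3⟩ := flow_of_span a b univ _ hspan1 (subset_univ _)
  obtain ⟨ψ2, r1, r2, r3⟩ := flow_of_span a b (KE a b c) _ hspan2 (by
    intro e he
    obtain ⟨j, _, h2⟩ := (hg 2 _ e).1 he
    simpa using h2)
  refine ⟨![ψ0, ψ1, ψ2], ?_, ?_, ?_⟩
  · intro e
    show ψ0 e ≠ 0 ∨ ψ1 e ≠ 0 ∨ ψ2 e ≠ 0
    by_contra hcon
    push Not at hcon
    have m0 : e ∈ g 0 (I 0) := by
      by_contra h
      have := p1 e (mem_univ _) h
      rw [hcon.1] at this
      exact absurd this (by decide)
    have m1 : e ∈ g 1 (I 1) := by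
      by_contra h
      have := q1 e (mem_univ _) h
      rw [hcon.2.1] at this
      exact absurd this (by decide)
    obtain ⟨j0, k0, l0⟩ := (hg _ _ _).1 m0
    obtain ⟨j1, k1, l1⟩ := (hg _ _ _).1 m1
    by_cases hK : e ∈ KE a b c
    · have m2 : e ∈ g 2 (I 2) := by
        by_contra h
        have := r1 e hK h
        rw [hcon.2.2] at this
        exact absurd this (by decide)
      obtain ⟨j2, k2, l2⟩ := (hg _ _ _).1 m2
      have key : j0 = j1 ∨ j0 = j2 ∨ j1 = j2 := by
        clear k0 l0 k1 l1 k2 l2
        revert j0 j1 j2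
        decide
      rcases key with h | h | h
      · rw [h] at k0
        exact disjoint_left.1 (hd 0 1 (by decide)) k0 k1
      · rw [h] at k0
        exact disjoint_left.1 (hd 0 2 (by decide)) k0 k2
      · rw [h] at k1
        exact disjoint_left.1 (hd 1 2 (by decide)) k1 k2
    · have h0 := (l0.resolve_left hK).2
      have h1 := (l1.resolve_left hK).2
      rw [h0] at k0
      rw [h1] at k1
      exact disjoint_left.1 (hd 0 1 (by decide)) k0 k1
  · intro i
    fin_cases i
    · exact p3
    · exact q3
    · exact r3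
  · intro e he
    show ψ2 e = 0
    apply r2
    unfold KE
    rw [mem_filter]
    rintro ⟨_, h1, h2⟩
    rcases he with h | h
    · exact h1 h
    · exact h2 h

end Flow

/-- A bridgeless graph has, for every vertex c, a nowhere-zero flow over the elementary abelian
group of order eight whose third coordinate vanishes on all edges at c. -/
theorem exists_flow8c {W E : Type} [Fintype W] [DecidableEq W] [Fintype E] [DecidableEq E] :
    ∀ (n : ℕ) (a b : E → W) (c : W), (univ.filter (fun e => a e ≠ b e)).card = n →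
      (∀ X : Finset W, cn a b univ X ≠ 1) →
      ∃ ψ : Fin 3 → E → F2, (∀ e, ψ 0 e ≠ 0 ∨ ψ 1 e ≠ 0 ∨ ψ 2 e ≠ 0) ∧
        (∀ i, IsFlow a b (ψ i)) ∧ ∀ e, (a e = c ∨ b e = c) → ψ 2 e = 0 := by
  intro n
  induction n using Nat.strong_induction_on with
  | _ n ih =>
  intro a b c hn h13
  by_cases h4 : ∀ X : Finset W, cn a b univ X = 0 ∨ 3 ≤ cn a b univ X
  · exact flow8c a b c h4
  · push Not at h4
    obtain ⟨X, hX0, hX4⟩ := h4
    have hX := h13 X
    have hX2 : cn a b univ X = 2 := by omega
    unfold cn at hX2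
    obtain ⟨f, g, hfg, hset, hfc⟩ : ∃ f g, f ≠ g ∧
        univ.filter (fun e => ¬ (a e ∈ X ↔ b e ∈ X)) = {f, g} ∧
        ((a f = c ∨ b f = c) → (a g = c ∨ b g = c)) := by
      obtain ⟨f, g, hfg, hset⟩ := card_eq_two.1 hX2
      by_cases h : (a f = c ∨ b f = c) → (a g = c ∨ b g = c)
      · exact ⟨f, g, hfg, hset, h⟩
      · push Not at h
        exact ⟨g, f, hfg.symm, by rw [hset, pair_comm], fun _ => h.1⟩
    have hmem : ∀ e, ¬ (a e ∈ X ↔ b e ∈ X) ↔ (e = f ∨ e = g) := by
      intro e
      have : e ∈ univ.filter (fun e => ¬ (a e ∈ X ↔ b e ∈ X)) ↔ e ∈ ({f, g} : Finset E) := by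
        rw [hset]
      simpa using this
    have hfne : a f ≠ b f := by
      intro h
      exact (hmem f).2 (Or.inl rfl) (by rw [h])
    let ρ : W → W := fun w => if w = b f then a f else w
    have hρ : ∀ (M : Finset E) (Y : Finset W), cn (fun e => ρ (a e)) (fun e => ρ (b e)) M Y =
        cn a b M (univ.filter (fun w => ρ w ∈ Y)) := by
      intro M Y
      unfold cn
      congr 1
      apply filter_congr
      intro e _
      simp
    have hlt : (univ.filter (fun e => ρ (a e) ≠ ρ (b e))).card < n := by
      rw [← hn]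
      apply card_lt_card
      rw [ssubset_iff_of_subset]
      · refine ⟨f, ?_, ?_⟩
        · rw [mem_filter]; exact ⟨mem_univ _, hfne⟩
        · rw [mem_filter]
          rintro ⟨_, h⟩
          apply h
          simp [ρ, hfne]
      · intro e he
        rw [mem_filter] at he ⊢
        refine ⟨mem_univ _, fun h => he.2 (by rw [h])⟩
    obtain ⟨φ, hnz, hf, hfz⟩ := ih _ hlt (fun e => ρ (a e)) (fun e => ρ (b e)) (ρ c) rfl (by
      intro Y; rw [hρ]; exact h13 _)
    have key : ∀ φ : E → F2, IsFlow (fun e => ρ (a e)) (fun e => ρ (b e)) φ →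
        ∃ ψ : E → F2, IsFlow a b ψ ∧ (∀ e, e ≠ f → ψ e = φ e) ∧ ψ f = φ g := by
      intro φ hφ
      let δ : W → F2 := fun w => if w = b f then 1 else 0
      let l : F2 := ∑ e ∈ univ.erase f, φ e * (δ (a e) + δ (b e))
      let ψ : E → F2 := fun e => if e = f then l else φ e
      have hψf : ψ f = l := if_pos rfl
      have hψne : ∀ e, e ≠ f → ψ e = φ e := fun e he => if_neg he
      have hflow : IsFlow a b ψ := by
        intro c
        let c' : W → F2 := fun w => c (ρ w)
        have hcc : ∀ w, c w = c' w + (c (a f) + c (b f)) * δ w := by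
          intro w
          by_cases hw : w = b f
          · simp only [c', ρ, δ, hw, if_true, mul_one]
            rw [← add_assoc, f2_add_self, zero_add]
          · simp only [c', ρ, δ, hw, if_false, mul_zero, add_zero]
        have h1 : ∑ e, ψ e * (c (a e) + c (b e)) =
            ∑ e, ψ e * (c' (a e) + c' (b e)) +
              (c (a f) + c (b f)) * ∑ e, ψ e * (δ (a e) + δ (b e)) := by
          rw [mul_sum, ← sum_add_distrib]
          apply sum_congr rfl
          intro e _
          rw [hcc (a e), hcc (b e)]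
          ring
        have h2 : ∑ e, ψ e * (c' (a e) + c' (b e)) = 0 := by
          have h3 := hφ c
          rw [← h3]
          apply sum_congr rfl
          intro e _
          by_cases he : e = f
          · rw [he]
            have h4 : c' (a f) + c' (b f) = 0 := by
              simp only [c', ρ, hfne, if_false, if_true]
              exact f2_add_self _
            have h5 : c (ρ (a f)) + c (ρ (b f)) = 0 := h4
            rw [h4, mul_zero, mul_zero]
          · rw [hψne e he]
        have h3 : ∑ e, ψ e * (δ (a e) + δ (b e)) = 0 := by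
          rw [← add_sum_erase univ _ (mem_univ f), hψf]
          have h4 : ∑ e ∈ univ.erase f, ψ e * (δ (a e) + δ (b e)) = l := by
            apply sum_congr rfl
            intro e he
            rw [hψne e (ne_of_mem_erase he)]
          rw [h4]
          have h5 : δ (a f) + δ (b f) = 1 := by simp [δ, hfne]
          rw [h5, mul_one]
          exact f2_add_self _
        rw [h1, h2, h3, mul_zero, add_zero]
      refine ⟨ψ, hflow, hψne, ?_⟩
      -- the two edges of the cut carry the same value
      have h1 := hflow (fun w => if w ∈ X then 1 else 0)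
      have h2 : ∀ e ∈ (univ : Finset E), ψ e * ((if a e ∈ X then (1 : F2) else 0) +
          (if b e ∈ X then 1 else 0)) = if (e = f ∨ e = g) then ψ e else 0 := by
        intro e _
        by_cases he : (e = f ∨ e = g)
        · rw [if_pos he]
          have := (hmem e).2 he
          by_cases h3 : a e ∈ X
          · have h4 : b e ∉ X := fun h4 => this ⟨fun _ => h4, fun _ => h3⟩
            simp [h3, h4]
          · have h4 : b e ∈ X := by
              by_contra h4; exact this ⟨fun h => absurd h h3, fun h => absurd h h4⟩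
            simp [h3, h4]
        · rw [if_neg he]
          have := not_not.1 (fun h => he ((hmem e).1 h))
          by_cases h3 : a e ∈ X
          · have h4 := this.1 h3
            simp only [h3, h4, if_true]
            rw [f2_add_self, mul_zero]
          · have h4 : b e ∉ X := fun h => h3 (this.2 h)
            simp [h3, h4]
      rw [sum_congr rfl h2, ← sum_filter] at h1
      have h3 : univ.filter (fun e => e = f ∨ e = g) = {f, g} := by
        ext e; simp
      rw [h3, sum_pair hfg, hψne g (Ne.symm hfg)] at h1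
      calc ψ f = ψ f + (φ g + φ g) := by rw [f2_add_self, add_zero]
        _ = (ψ f + φ g) + φ g := by ring
        _ = φ g := by rw [h1, zero_add]
    choose ψ k1 k2 k3 using fun i => key (φ i) (hf i)
    refine ⟨ψ, ?_, k1, ?_⟩
    · intro e
      by_cases he : e = f
      · rw [he, k3, k3, k3]; exact hnz g
      · rw [k2 0 e he, k2 1 e he, k2 2 e he]; exact hnz e
    · intro e he
      by_cases hef : e = f
      · rw [hef, k3]
        apply hfz
        rw [hef] at he
        rcases hfc he with h | h
        · left; show ρ (a g) = ρ c; rw [h]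
        · right; show ρ (b g) = ρ c; rw [h]
      · rw [k2 2 e hef]
        apply hfz
        rcases he with h | h
        · left; show ρ (a e) = ρ c; rw [h]
        · right; show ρ (b e) = ρ c; rw [h]

end Pool.Agent.H211R2.SCDC
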