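import Pool.Agent.H211R2.SCDC.PackM
import Pool.Agent.Helper879.ECD.Flow

set_option autoImplicit false
set_option linter.unusedSectionVars false
set_option linter.unusedSimpArgs false

/-!
Rank condition for packing two spanning sets of a graph and one spanning set of the graph minus a
vertex c, the edges away from c being available twice and the edges at c once.
-/

namespace Pool.Agent.H211R2.SCDC

open Finset
open Pool.Agent.Helper879.ECD (sp Ind sp_mono mem_sp mem_sp_exch sp_exch F2 IsFlow inc fnl
  fnl_single fnl_inc cn f2_add_self exists_coeff)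

variable {W E : Type} [Fintype W] [DecidableEq W] [Fintype E] [DecidableEq E]

/-- the edges not incident with c -/
def KE (a b : E → W) (c : W) : Finset E := univ.filter fun e => a e ≠ c ∧ b e ≠ c

/-- equivalence of two vertices modulo a subspace -/
def rel (S : Submodule F2 (W → F2)) (w v : W) : Prop :=
  (Pi.single w 1 + Pi.single v 1 : W → F2) ∈ S

omit [Fintype W] in
theorem wself (u : W → F2) : u + u = 0 := by ext w; exact f2_add_self _

omit [Fintype W] in
theorem rel_refl (S : Submodule F2 (W → F2)) (w : W) : rel S w w := by
  unfold rel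
  rw [wself]; exact S.zero_mem

omit [Fintype W] in
theorem rel_symm {S : Submodule F2 (W → F2)} {w v : W} (h : rel S w v) : rel S v w := by
  unfold rel at *
  rw [add_comm]; exact h

omit [Fintype W] in
theorem rel_trans {S : Submodule F2 (W → F2)} {u v w : W} (h1 : rel S u v) (h2 : rel S v w) :
    rel S u w := by
  unfold rel at *
  have h3 := S.add_mem h1 h2
  have h4 : (Pi.single u 1 + Pi.single v 1 : W → F2) + (Pi.single v 1 + Pi.single w 1) =
      Pi.single u 1 + Pi.single w 1 := by
    rw [show (Pi.single u 1 + Pi.single v 1 : W → F2) + (Pi.single v 1 + Pi.single w 1) =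
      Pi.single u 1 + (Pi.single v 1 + Pi.single v 1) + Pi.single w 1 by abel, wself, add_zero]
  rw [h4] at h3
  exact h3

open Classical in
theorem rank_condC (a b : E → W) (c : W)
    (h3 : ∀ X : Finset W, cn a b univ X = 0 ∨ 3 ≤ cn a b univ X)
    (RK Rc : Finset E) (hRK : RK ⊆ KE a b c) (hRc : ∀ e ∈ Rc, e ∉ KE a b c) :
    2 * Module.finrank F2 (sp F2 (inc a b) univ) +
        Module.finrank F2 (sp F2 (inc a b) (KE a b c)) ≤
      2 * Module.finrank F2 (sp F2 (inc a b) (RK ∪ Rc)) +
        Module.finrank F2 (sp F2 (inc a b) RK) +
        (2 * ((KE a b c).filter (fun e => ¬ inc a b e ∈ sp F2 (inc a b) RK)).card +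
          (univ.filter (fun e => e ∉ KE a b c ∧
            ¬ inc a b e ∈ sp F2 (inc a b) (RK ∪ Rc))).card) := by
  obtain ⟨S', hS'⟩ : ∃ S', S' = sp F2 (inc a b) RK := ⟨_, rfl⟩
  obtain ⟨S, hS⟩ : ∃ S, S = sp F2 (inc a b) (RK ∪ Rc) := ⟨_, rfl⟩
  have hle : S' ≤ S := by rw [hS', hS]; exact sp_mono subset_union_left
  have hKm : ∀ e, e ∈ KE a b c ↔ (a e ≠ c ∧ b e ≠ c) := by intro e; simp [KE]
  rw [← hS', ← hS]
  -- functionals vanishing on the generators
  have hfS' : ∀ f : W → F2, (∀ e ∈ RK, f (a e) + f (b e) = 0) → ∀ u ∈ S', fnl f u = 0 := by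
    intro f hf u hu
    rw [hS'] at hu
    have : sp F2 (inc a b) RK ≤ LinearMap.ker (fnl f) := by
      unfold sp
      rw [Submodule.span_le]
      rintro _ ⟨e, he, rfl⟩
      show fnl f (inc a b e) = 0
      rw [fnl_inc]
      exact hf e (mem_coe.1 he)
    exact this hu
  have hfS : ∀ f : W → F2, (∀ e ∈ RK ∪ Rc, f (a e) + f (b e) = 0) → ∀ u ∈ S, fnl f u = 0 := by
    intro f hf u hu
    rw [hS] at hu
    have : sp F2 (inc a b) (RK ∪ Rc) ≤ LinearMap.ker (fnl f) := by
      unfold sp
      rw [Submodule.span_le]
      rintro _ ⟨e, he, rfl⟩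
      show fnl f (inc a b e) = 0
      rw [fnl_inc]
      exact hf e (mem_coe.1 he)
    exact this hu
  -- the class of c modulo S' is {c}
  have hc' : ∀ w, rel S' c w → w = c := by
    intro w hw
    by_contra hne
    have h1 := hfS' (fun v => if v = c then 1 else 0) (by
      intro e he
      have := (hKm e).1 (hRK he)
      simp [this.1, this.2]) _ hw
    rw [map_add, fnl_single, fnl_single] at h1
    simp [hne] at h1
  let cls : W → Finset W := fun w => univ.filter (fun v => rel S' w v)
  have hcls : ∀ w v, v ∈ cls w ↔ rel S' w v := by intro w v; simp [cls]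
  have hcls_eq : ∀ w v, rel S' w v → cls w = cls v := by
    intro w v h
    ext u
    rw [hcls, hcls]
    exact ⟨fun h' => rel_trans (rel_symm h) h', fun h' => rel_trans h h'⟩
  let Q : Finset (Finset W) := (univ.erase c).image cls
  have hQmem : ∀ w, w ≠ c → cls w ∈ Q := fun w hw =>
    mem_image_of_mem _ (mem_erase.2 ⟨hw, mem_univ _⟩)
  have hQuniq : ∀ X ∈ Q, ∀ w ∈ X, X = cls w := by
    intro X hX w hw
    obtain ⟨v, _, rfl⟩ := mem_image.1 hX
    exact hcls_eq _ _ ((hcls _ _).1 hw)
  have hQc : ∀ X ∈ Q, c ∉ X := by
    intro X hX hcX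
    obtain ⟨v, hv, rfl⟩ := mem_image.1 hX
    exact (mem_erase.1 hv).1 (hc' v (rel_symm ((hcls _ _).1 hcX)))
  -- ordinary classes
  let ord : Finset W → Prop := fun X => ∀ w ∈ X, ¬ rel S w c
  have hord : ∀ w, ord (cls w) ↔ ¬ rel S w c := by
    intro w
    constructor
    · intro h
      exact h w ((hcls _ _).2 (rel_refl _ _))
    · intro h v hv h2
      exact h (rel_trans (hle ((hcls _ _).1 hv)) h2)
  -- an S-relation between vertices off the class of c is an S'-relation
  have hlift : ∀ w v, ¬ rel S w c → rel S w v → rel S' w v := by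
    intro w v hw hwv
    by_contra hcon
    have h1 := hfS (fun u => if rel S' w u then 1 else 0) (by
      intro e he
      rw [mem_union] at he
      rcases he with he | he
      · have h2 : rel S' (a e) (b e) := by
          show inc a b e ∈ S'
          rw [hS']; exact mem_sp he
        have h3 : rel S' w (a e) ↔ rel S' w (b e) :=
          ⟨fun h => rel_trans h h2, fun h => rel_trans h (rel_symm h2)⟩
        by_cases h4 : rel S' w (a e)
        · simp only [h4, h3.1 h4, if_true]
          exact f2_add_self _
        · have h5 : ¬ rel S' w (b e) := fun h => h4 (h3.2 h)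
          simp [h4, h5]
      · have h2 : rel S (a e) (b e) := by
          show inc a b e ∈ S
          rw [hS]; exact mem_sp (mem_union_right _ he)
        have h5 := hRc e he
        have key : ∀ u, rel S u c → ¬ rel S' w u := fun u hu h => hw (rel_trans (hle h) hu)
        have h6 : a e = c ∨ b e = c := by
          by_contra h7
          push Not at h7
          exact h5 ((hKm e).2 h7)
        have h7 : rel S (a e) c ∧ rel S (b e) c := by
          rcases h6 with h | h
          · refine ⟨by rw [h]; exact rel_refl _ _, ?_⟩
            rw [h] at h2; exact rel_symm h2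
          · refine ⟨?_, by rw [h]; exact rel_refl _ _⟩
            rw [h] at h2; exact h2
        simp [key _ h7.1, key _ h7.2]) _ hwv
    rw [map_add, fnl_single, fnl_single] at h1
    simp [hcon, rel_refl] at h1
  have hrep : ∀ X ∈ Q, ∃ w, w ∈ X := by
    intro X hX
    obtain ⟨v, _, rfl⟩ := mem_image.1 hX
    exact ⟨v, (hcls _ _).2 (rel_refl _ _)⟩
  have hWne : Nonempty W := ⟨c⟩
  choose! rep hrep using hrep
  -- bound for the rank of the whole graph
  let O : Finset (Finset W) := Q.filter (fun X => ord X ∧ cn a b univ X ≠ 0)
  let QK : Finset (Finset W) := Q.filter (fun X => cn a b (KE a b c) X ≠ 0)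
  have hr1 : Module.finrank F2 (sp F2 (inc a b) univ) ≤ Module.finrank F2 S + O.card := by
    let T : Finset (W → F2) := O.image (fun X => Pi.single (rep X) 1 + Pi.single c 1)
    have hle1 : sp F2 (inc a b) univ ≤ S ⊔ Submodule.span F2 (T : Set (W → F2)) := by
      unfold sp
      rw [Submodule.span_le]
      rintro _ ⟨e, _, rfl⟩
      by_cases h : inc a b e ∈ S
      · exact Submodule.mem_sup_left h
      · have hmem : ∀ w, (w = a e ∨ w = b e) →
            (Pi.single w 1 + Pi.single c 1 : W → F2) ∈
              S ⊔ Submodule.span F2 (T : Set (W → F2)) := by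
          intro w hw
          by_cases hwc : rel S w c
          · exact Submodule.mem_sup_left hwc
          · have hwne : w ≠ c := fun h2 => hwc (by rw [h2]; exact rel_refl _ _)
            have hX : cls w ∈ O := by
              rw [mem_filter]
              refine ⟨hQmem w hwne, (hord w).2 hwc, ?_⟩
              unfold cn
              rw [card_ne_zero]
              refine ⟨e, mem_filter.2 ⟨mem_univ _, ?_⟩⟩
              intro h2
              apply h
              apply hle
              rcases hw with rfl | rfl
              · exact (hcls _ _).1 (h2.1 ((hcls _ _).2 (rel_refl _ _)))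
              · exact rel_symm ((hcls _ _).1 (h2.2 ((hcls _ _).2 (rel_refl _ _))))
            have h1 : (Pi.single w 1 + Pi.single (rep (cls w)) 1 : W → F2) ∈ S :=
              hle ((hcls _ _).1 (hrep _ (hQmem w hwne)))
            have h2 : (Pi.single (rep (cls w)) 1 + Pi.single c 1 : W → F2) ∈
                Submodule.span F2 (T : Set (W → F2)) := by
              apply Submodule.subset_span
              rw [mem_coe]
              exact mem_image.2 ⟨cls w, hX, rfl⟩
            have h4 : (Pi.single w 1 + Pi.single c 1 : W → F2) =
                (Pi.single w 1 + Pi.single (rep (cls w)) 1) +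
                  (Pi.single (rep (cls w)) 1 + Pi.single c 1) := by
              rw [show (Pi.single w 1 + Pi.single (rep (cls w)) 1 : W → F2) +
                (Pi.single (rep (cls w)) 1 + Pi.single c 1) = Pi.single w 1 +
                (Pi.single (rep (cls w)) 1 + Pi.single (rep (cls w)) 1) + Pi.single c 1 by abel,
                wself, add_zero]
            rw [h4]
            exact Submodule.add_mem _ (Submodule.mem_sup_left h1) (Submodule.mem_sup_right h2)
        have h5 : inc a b e = (Pi.single (a e) 1 + Pi.single c 1 : W → F2) +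
            (Pi.single (b e) 1 + Pi.single c 1) := by
          unfold inc
          rw [show (Pi.single (a e) 1 + Pi.single c 1 : W → F2) +
            (Pi.single (b e) 1 + Pi.single c 1) = (Pi.single (a e) 1 + Pi.single (b e) 1) +
            (Pi.single c 1 + Pi.single c 1) by abel, wself, add_zero]
        show inc a b e ∈ _
        rw [h5]
        exact Submodule.add_mem _ (hmem _ (Or.inl rfl)) (hmem _ (Or.inr rfl))
    have h1 := Submodule.finrank_mono hle1
    have h2 := Submodule.finrank_add_le_finrank_add_finrank S
      (Submodule.span F2 (T : Set (W → F2)))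
    have h4 : Module.finrank F2 (Submodule.span F2 (T : Set (W → F2))) ≤ T.card :=
      finrank_span_finset_le_card T
    have h5 : T.card ≤ O.card := card_image_le
    omega
  have hr2 : Module.finrank F2 (sp F2 (inc a b) (KE a b c)) ≤
      Module.finrank F2 S' + QK.card := by
    let T : Finset (W → F2) := QK.image (fun X => Pi.single (rep X) 1)
    have hle1 : sp F2 (inc a b) (KE a b c) ≤ S' ⊔ Submodule.span F2 (T : Set (W → F2)) := by
      unfold sp
      rw [Submodule.span_le]
      rintro _ ⟨e, he, rfl⟩
      have heK := (hKm e).1 (mem_coe.1 he)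
      by_cases h : inc a b e ∈ S'
      · exact Submodule.mem_sup_left h
      · have hmem : ∀ w, (w = a e ∨ w = b e) →
            (Pi.single w 1 : W → F2) ∈ S' ⊔ Submodule.span F2 (T : Set (W → F2)) := by
          intro w hw
          have hwne : w ≠ c := by
            rcases hw with rfl | rfl
            · exact heK.1
            · exact heK.2
          have hX : cls w ∈ QK := by
            rw [mem_filter]
            refine ⟨hQmem w hwne, ?_⟩
            unfold cn
            rw [card_ne_zero]
            refine ⟨e, mem_filter.2 ⟨mem_coe.1 he, ?_⟩⟩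
            intro h2
            apply h
            rcases hw with rfl | rfl
            · exact (hcls _ _).1 (h2.1 ((hcls _ _).2 (rel_refl _ _)))
            · exact rel_symm ((hcls _ _).1 (h2.2 ((hcls _ _).2 (rel_refl _ _))))
          have h1 : (Pi.single w 1 + Pi.single (rep (cls w)) 1 : W → F2) ∈ S' :=
            (hcls _ _).1 (hrep _ (hQmem w hwne))
          have h2 : (Pi.single (rep (cls w)) 1 : W → F2) ∈
              Submodule.span F2 (T : Set (W → F2)) := by
            apply Submodule.subset_span
            rw [mem_coe]
            exact mem_image.2 ⟨cls w, hX, rfl⟩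
          have h4 : (Pi.single w 1 : W → F2) =
              (Pi.single w 1 + Pi.single (rep (cls w)) 1) + Pi.single (rep (cls w)) 1 := by
            rw [add_assoc, wself, add_zero]
          rw [h4]
          exact Submodule.add_mem _ (Submodule.mem_sup_left h1) (Submodule.mem_sup_right h2)
        exact Submodule.add_mem _ (hmem _ (Or.inl rfl)) (hmem _ (Or.inr rfl))
    have h1 := Submodule.finrank_mono hle1
    have h2 := Submodule.finrank_add_le_finrank_add_finrank S'
      (Submodule.span F2 (T : Set (W → F2)))
    have h4 : Module.finrank F2 (Submodule.span F2 (T : Set (W → F2))) ≤ T.card :=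
      finrank_span_finset_le_card T
    have h5 : T.card ≤ QK.card := card_image_le
    omega
  -- counting the edges away from c
  have hcount1 : ∑ X ∈ Q, cn a b (KE a b c) X ≤
      2 * ((KE a b c).filter (fun e => ¬ inc a b e ∈ S')).card := by
    simp only [cn, card_filter, mul_sum]
    rw [sum_comm]
    apply sum_le_sum
    intro e he
    by_cases h : inc a b e ∈ S'
    · have h1 : ∀ X ∈ Q, (if ¬ (a e ∈ X ↔ b e ∈ X) then 1 else 0) = 0 := by
        intro X hX
        rw [if_neg]
        rw [not_not]
        constructor
        · intro h2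
          rw [hQuniq X hX _ h2, hcls]
          exact h
        · intro h2
          rw [hQuniq X hX _ h2, hcls]
          exact rel_symm h
      rw [sum_congr rfl h1]
      simp [h]
    · have h1 : ∀ X ∈ Q, (if ¬ (a e ∈ X ↔ b e ∈ X) then 1 else 0) ≤
          (if X = cls (a e) then 1 else 0) + (if X = cls (b e) then 1 else 0) := by
        intro X hX
        by_cases h2 : X = cls (a e)
        · rw [if_pos h2]
          split_ifs <;> omega
        · by_cases h4 : X = cls (b e)
          · rw [if_pos h4]
            split_ifs <;> omega
          · rw [if_neg h2, if_neg h4, if_neg]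
            rw [not_not]
            exact ⟨fun h5 => absurd (hQuniq X hX _ h5) h2, fun h5 => absurd (hQuniq X hX _ h5) h4⟩
      refine (sum_le_sum h1).trans ?_
      rw [sum_add_distrib]
      have h6 : ∀ Y : Finset W, ∑ X ∈ Q, (if X = Y then 1 else 0) ≤ 1 := by
        intro Y
        rw [sum_ite_eq']
        split_ifs <;> omega
      have h7 := h6 (cls (a e))
      have h8 := h6 (cls (b e))
      rw [if_pos h]
      omega
  -- counting the edges at c
  have hcount2 : ∑ X ∈ Q, (if ord X then cn a b (univ \ KE a b c) X else 0) ≤
      (univ.filter (fun e => e ∉ KE a b c ∧ ¬ inc a b e ∈ S)).card := by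
    have h1 : ∀ X ∈ Q, (if ord X then cn a b (univ \ KE a b c) X else 0) =
        ∑ e ∈ univ \ KE a b c, (if ord X ∧ ¬ (a e ∈ X ↔ b e ∈ X) then 1 else 0) := by
      intro X _
      unfold cn
      rw [card_filter]
      by_cases h : ord X
      · simp only [h, if_true, true_and]
      · simp only [h, if_false, false_and, sum_const_zero]
    rw [sum_congr rfl h1, sum_comm, card_filter]
    have h2 : ∑ e, (if e ∉ KE a b c ∧ ¬ inc a b e ∈ S then 1 else 0) =
        ∑ e ∈ univ \ KE a b c, (if ¬ inc a b e ∈ S then 1 else 0) := by
      rw [← sum_filter, ← sum_filter]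
      congr 1
      ext e
      simp
    rw [h2]
    apply sum_le_sum
    intro e he
    have he' : a e = c ∨ b e = c := by
      by_contra h7
      push Not at h7
      exact (mem_sdiff.1 he).2 ((hKm e).2 h7)
    -- the other end
    obtain ⟨u, hu1, hu2, hu3⟩ : ∃ u, (∀ X ∈ Q, (¬ (a e ∈ X ↔ b e ∈ X)) → u ∈ X) ∧
        (inc a b e ∈ S → rel S u c) ∧ (u = a e ∨ u = b e) := by
      rcases he' with h | h
      · refine ⟨b e, fun X hX h1 => ?_, fun h1 => ?_, Or.inr rfl⟩
        · by_contra h2
          apply h1
          rw [h]
          exact ⟨fun h4 => absurd h4 (hQc X hX), fun h4 => absurd h4 h2⟩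
        · have h2 : rel S (a e) (b e) := h1
          rw [h] at h2
          exact rel_symm h2
      · refine ⟨a e, fun X hX h1 => ?_, fun h1 => ?_, Or.inl rfl⟩
        · by_contra h2
          apply h1
          rw [h]
          exact ⟨fun h4 => absurd h4 h2, fun h4 => absurd h4 (hQc X hX)⟩
        · have h2 : rel S (a e) (b e) := h1
          rw [h] at h2
          exact h2
    by_cases h : inc a b e ∈ S
    · rw [sum_eq_zero]
      · exact Nat.zero_le _
      · intro X hX
        rw [if_neg]
        rintro ⟨h4, h5⟩
        exact h4 u (hu1 X hX h5) (hu2 h)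
    · rw [if_pos h]
      have h4 : ∀ X ∈ Q, (if ord X ∧ ¬ (a e ∈ X ↔ b e ∈ X) then 1 else 0) ≤
          (if X = cls u then 1 else 0) := by
        intro X hX
        by_cases h5 : ord X ∧ ¬ (a e ∈ X ↔ b e ∈ X)
        · rw [if_pos h5, if_pos (hQuniq X hX _ (hu1 X hX h5.2))]
        · rw [if_neg h5]
          exact Nat.zero_le _
      refine (sum_le_sum h4).trans ?_
      rw [sum_ite_eq']
      split_ifs <;> omega
  -- pointwise inequality
  have hpt : ∑ X ∈ Q, (2 * (if ord X ∧ cn a b univ X ≠ 0 then 1 else 0) +
      (if cn a b (KE a b c) X ≠ 0 then 1 else 0)) ≤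
      ∑ X ∈ Q, (cn a b (KE a b c) X + (if ord X then cn a b (univ \ KE a b c) X else 0)) := by
    apply sum_le_sum
    intro X _
    have h1 : cn a b univ X = cn a b (KE a b c) X + cn a b (univ \ KE a b c) X := by
      unfold cn
      rw [← card_union_of_disjoint]
      · congr 1
        ext e
        simp only [mem_filter, mem_union, mem_univ, true_and, mem_sdiff]
        tauto
      · rw [disjoint_left]
        intro e h1 h2
        exact (mem_sdiff.1 (mem_filter.1 h2).1).2 (mem_filter.1 h1).1
    have h2 := h3 X
    by_cases ho : ord X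
    · simp only [ho, true_and, if_true]
      split_ifs <;> omega
    · simp only [ho, false_and, if_false]
      split_ifs <;> omega
  rw [sum_add_distrib, sum_add_distrib, ← mul_sum, ← card_filter, ← card_filter] at hpt
  have hO : (Q.filter fun X => ord X ∧ cn a b univ X ≠ 0).card = O.card := rfl
  have hQK : (Q.filter fun X => cn a b (KE a b c) X ≠ 0).card = QK.card := rfl
  rw [hO, hQK] at hpt
  omega

end Pool.Agent.H211R2.SCDC
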