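import Pool.Agent.H211R2.SCDC.Main4

set_option autoImplicit false
set_option linter.unusedSectionVars false
set_option linter.unusedSimpArgs false

/-!
Passage from flows on the individual bridges of S to the four even subgraphs of main_flow4.
-/

open Finset Matrix

namespace Pool.Agent.H211R2.SCDC

open Pool.Agent.Helper347.Sab
open Pool.Agent.Helper998.Near (Rch join mem_decomp rch_symm)
open Pool.Agent.H164R2

variable {V E : Type} [Fintype V] [DecidableEq V] [Fintype E] [DecidableEq E]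

/-- Adapted from H164R2.strong: the flows on the bridges of S may vanish on N. -/
theorem strong4 (G : MGraph V E) (H S N : Finset E) (hSH : S ⊆ H)
    (hS : ∀ v, dg G S v = 0 ∨ dg G S v = 2)
    (h : ∀ v : V, ∃ A B : Finset E, Ev G A ∧ Ev G B ∧ A ⊆ H ∧ B ⊆ H ∧
      (∀ f, f ∉ S → (f ∈ A ∨ f ∈ B) → ∀ u ∈ G.ends f, Rch G (H \ S) v u) ∧
      (∀ f ∈ H, f ∉ S → f ∉ N → (∀ u ∈ G.ends f, Rch G (H \ S) v u) → f ∈ A ∨ f ∈ B)) :
    ∃ Y : Fin 4 → Finset E, (∀ i, Ev G (Y i)) ∧ (∀ i, Y i ⊆ H) ∧
      (∀ e, e ∈ S → (univ.filter fun i => e ∈ Y i).card = 1) ∧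
      (∀ e, e ∈ H → e ∉ S → e ∉ N → (univ.filter fun i => e ∈ Y i).card = 2) := by
  classical
  let _inst : Fintype (GaloisField 2 2) := Fintype.ofFinite _
  have hcard : Fintype.card (GaloisField 2 2) = 4 := by
    rw [← Nat.card_eq_fintype_card, GaloisField.card 2 2 (by norm_num)]
    norm_num
  have h4 : ∀ x : GaloisField 2 2, x ^ 4 = x := by
    intro x
    have := FiniteField.pow_card x
    rwa [hcard] at this
  obtain ⟨w, hw⟩ : ∃ w : GaloisField 2 2, w ∉ ({0, 1} : Finset (GaloisField 2 2)) := by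
    by_contra hcon
    push Not at hcon
    have h1 : (univ : Finset (GaloisField 2 2)) ⊆ {0, 1} := fun x _ => hcon x
    have h2 := card_le_card h1
    rw [card_univ, hcard] at h2
    have h3 : ({0, 1} : Finset (GaloisField 2 2)).card ≤ 2 := card_le_two
    omega
  rw [mem_insert, mem_singleton, not_or] at hw
  obtain ⟨hw0, hw1⟩ := hw
  let bas := Module.finBasisOfFinrankEq (ZMod 2) (GaloisField 2 2)
    (GaloisField.finrank 2 (n := 2) (by norm_num))
  have hpq : ∀ x : GaloisField 2 2, (bas.coord 0).toAddMonoidHom x = 0 →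
      (bas.coord 1).toAddMonoidHom x = 0 → x = 0 := by
    intro x h1 h2
    apply bas.ext_elem
    intro i
    rw [map_zero, Finsupp.zero_apply]
    fin_cases i
    · exact h1
    · exact h2
  -- classes
  let st : Setoid V := ⟨Rch G (H \ S), ⟨fun _ => Relation.ReflTransGen.refl,
    fun hab => rch_symm G _ _ _ hab, fun hab hbc => hab.trans hbc⟩⟩
  have hrep : ∀ b : Quotient st, ∃ v, (Quotient.mk st v) = b := fun b => Quotient.exists_rep b
  choose rep hrep using hrep
  choose A B hA hB hAH hBH h1 h2 using h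
  have hcl : ∀ u v, Quotient.mk st u = Quotient.mk st v ↔ Rch G (H \ S) u v := by
    intro u v
    exact Quotient.eq
  have hone : ∀ f ∈ H, f ∉ S → ∀ u ∈ G.ends f, ∀ v ∈ G.ends f, Rch G (H \ S) u v := by
    intro f hf hfS u hu v hv
    by_cases huv : u = v
    · rw [huv]
    · refine Relation.ReflTransGen.single ⟨f, mem_sdiff.2 ⟨hf, hfS⟩, ?_⟩
      exact (Sym2.mem_and_mem_iff huv).1 ⟨hu, hv⟩
  have hwne : (1 : GaloisField 2 2) + w ≠ 0 := by
    intro h3
    apply hw1
    have h5 := two0 (1 : GaloisField 2 2)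
    linear_combination h3 - h5
  refine main_flow4 (K := GaloisField 2 2) h4 w hw0 hw1 _ _ hpq G H S hSH hS
    (Quotient.mk st) (fun u v huv => (hcl u v).1 huv)
    (fun b e => (if e ∈ A (rep b) then 1 else 0) + (if e ∈ B (rep b) then w else 0))
    ?_ ?_ ?_ N ?_
  · intro b v
    have h3 := bd_ind (K := GaloisField 2 2) G _ 1 (hA (rep b)) v
    have h5 := bd_ind (K := GaloisField 2 2) G _ w (hB (rep b)) v
    have h7 : bd G (fun e => (if e ∈ A (rep b) then 1 else 0) +
        (if e ∈ B (rep b) then w else 0)) v =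
        bd G (fun e => if e ∈ A (rep b) then (1 : GaloisField 2 2) else 0) v +
        bd G (fun e => if e ∈ B (rep b) then w else 0) v := by
      unfold bd
      rw [← sum_add_distrib]
      refine sum_congr rfl fun e _ => ?_
      by_cases h6 : v ∈ G.ends e <;> simp [h6]
    rw [h7, h3, h5, add_zero]
  · intro b e he
    rw [if_neg fun h3 => he (hAH _ h3), if_neg fun h3 => he (hBH _ h3), add_zero]
  · intro b e he heS v hv hvb
    have h3 : ¬ (e ∈ A (rep b) ∨ e ∈ B (rep b)) := by
      intro h5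
      apply hvb
      rw [← hrep b]
      exact (hcl _ _).2 (rch_symm G _ _ _ (h1 _ e heS h5 v hv))
    rw [not_or] at h3
    rw [if_neg h3.1, if_neg h3.2, add_zero]
  · intro e he heS heN v hv
    have h3 : Rch G (H \ S) (rep (Quotient.mk st v)) v := (hcl _ _).1 (hrep _)
    have h5 := h2 (rep (Quotient.mk st v)) e he heS heN
      (fun u hu => h3.trans (hone e he heS v hv u hu))
    by_cases h6 : e ∈ A (rep (Quotient.mk st v)) <;> by_cases h7 : e ∈ B (rep (Quotient.mk st v))
    · simp only [h6, h7, if_true]; exact hwne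
    · simp [h6, h7]
    · simp only [h6, h7, if_true, if_false, zero_add]; exact hw0
    · exact absurd h5 (by tauto)

/-- Edge version; adapted from H164R2.strong_edges. -/
theorem strong_edges4 (G : MGraph V E) (H S N : Finset E) (hSH : S ⊆ H)
    (hH : ∀ v, dg G H v ≤ 3) (hS : ∀ v, dg G S v = 0 ∨ dg G S v = 2)
    (hoff : ∀ f, f ∉ H → ∀ v ∈ G.ends f, dg G S v ≠ 0)
    (h : ∀ e ∈ H, e ∉ S → ∃ A B : Finset E, Ev G A ∧ Ev G B ∧
      (∀ f ∈ A, f ∈ S ∨ SB G S e f) ∧ (∀ f ∈ B, f ∈ S ∨ SB G S e f) ∧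
      ∀ f, f ∉ S → f ∉ N → SB G S e f → f ∈ A ∨ f ∈ B) :
    ∃ Y : Fin 4 → Finset E, (∀ i, Ev G (Y i)) ∧ (∀ i, Y i ⊆ H) ∧
      (∀ e, e ∈ S → (univ.filter fun i => e ∈ Y i).card = 1) ∧
      (∀ e, e ∈ H → e ∉ S → e ∉ N → (univ.filter fun i => e ∈ Y i).card = 2) := by
  classical
  -- edges outside S at a vertex of S are equal
  have huniq : ∀ v, dg G S v ≠ 0 → ∀ f g, f ∈ H → f ∉ S → g ∈ H → g ∉ S → v ∈ G.ends f →
      v ∈ G.ends g → f = g := by
    intro v hv f g hf hfS hg hgS hvf hvg
    have h1 := dg_sdiff (G := G) hSH v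
    have h2 := hH v
    have h3 := hS v
    have h4 : dg G (H \ S) v ≤ 1 := by omega
    unfold dg at h4
    rw [card_le_one] at h4
    exact h4 f (mem_filter.2 ⟨mem_sdiff.2 ⟨hf, hfS⟩, hvf⟩) g
      (mem_filter.2 ⟨mem_sdiff.2 ⟨hg, hgS⟩, hvg⟩)
  -- chains starting in H \ S stay there
  have hstay : ∀ e ∈ H, e ∉ S → ∀ f, SB G S e f → f ∈ H ∧ f ∉ S := by
    intro e he heS f hf
    induction hf with
    | refl => exact ⟨he, heS⟩
    | tail h0 h1 ih =>
      rename_i b c
      obtain ⟨h2, v, h3, h4, h5⟩ := h1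
      refine ⟨?_, h2⟩
      by_contra hcon
      exact hoff c hcon v h4 h5
  -- a chain of edges gives a walk
  have hwalk : ∀ e ∈ H, e ∉ S → ∀ f, SB G S e f → ∀ v ∈ G.ends e, ∀ u ∈ G.ends f,
      Rch G (H \ S) v u := by
    intro e he heS f hf
    have hone : ∀ g ∈ H, g ∉ S → ∀ v ∈ G.ends g, ∀ u ∈ G.ends g, Rch G (H \ S) v u := by
      intro g hg hgS v hv u hu
      by_cases huv : v = u
      · rw [huv]
      · exact Relation.ReflTransGen.single ⟨g, mem_sdiff.2 ⟨hg, hgS⟩,
          (Sym2.mem_and_mem_iff huv).1 ⟨hv, hu⟩⟩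
    induction hf with
    | refl => exact hone e he heS
    | tail h0 h1 ih =>
      rename_i b c
      intro v hv u hu
      obtain ⟨h2, x, h3, h4, h5⟩ := h1
      have hc := hstay e he heS c (h0.tail ⟨h2, x, h3, h4, h5⟩)
      exact (ih v hv x h3).trans (hone c hc.1 hc.2 x h4 u hu)
  -- a walk gives a chain of edges
  have hchain : ∀ e ∈ H, e ∉ S → ∀ v ∈ G.ends e, ∀ u, Rch G (H \ S) v u → ∀ f ∈ H, f ∉ S →
      u ∈ G.ends f → SB G S e f := by
    intro e he heS v hv u hu
    induction hu with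
    | refl =>
      intro f hf hfS hvf
      by_cases h1 : dg G S v = 0
      · exact Relation.ReflTransGen.single ⟨hfS, v, hv, hvf, h1⟩
      · rw [huniq v h1 e f he heS hf hfS hv hvf]
    | tail h0 h1 ih =>
      rename_i x y
      obtain ⟨g, hg, hends⟩ := h1
      rw [mem_sdiff] at hg
      intro f hf hfS hyf
      have h2 := ih g hg.1 hg.2 (by rw [hends]; simp)
      have hyg : y ∈ G.ends g := by rw [hends]; simp
      by_cases h3 : dg G S y = 0
      · exact h2.tail ⟨hfS, y, hyg, hyf, h3⟩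
      · rw [← huniq y h3 g f hg.1 hg.2 hf hfS hyg hyf]
        exact h2
  refine strong4 G H S N hSH hS fun v => ?_
  by_cases hv : ∃ e ∈ H, e ∉ S ∧ v ∈ G.ends e
  · obtain ⟨e, he, heS, hve⟩ := hv
    obtain ⟨A, B, hA, hB, hA1, hB1, hAB⟩ := h e he heS
    refine ⟨A, B, hA, hB, ?_, ?_, ?_, ?_⟩
    · intro f hf
      rcases hA1 f hf with h1 | h1
      · exact hSH h1
      · exact (hstay e he heS f h1).1
    · intro f hf
      rcases hB1 f hf with h1 | h1
      · exact hSH h1
      · exact (hstay e he heS f h1).1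
    · intro f hfS hf u hu
      refine hwalk e he heS f ?_ v hve u hu
      rcases hf with h1 | h1
      · exact (hA1 f h1).resolve_left hfS
      · exact (hB1 f h1).resolve_left hfS
    · intro f hf hfS hfN hreach
      obtain ⟨u, _, _, hends⟩ := exists_ends G f
      have hu : u ∈ G.ends f := by rw [hends]; simp
      exact hAB f hfS hfN (hchain e he heS v hve u (hreach u hu) f hf hfS hu)
  · -- isolated vertex of the complement
    have hiso : ∀ u, Rch G (H \ S) v u → u = v := by
      intro u hu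
      induction hu with
      | refl => rfl
      | tail h0 h1 ih =>
        rename_i x y
        exfalso
        apply hv
        obtain ⟨g, hg, hends⟩ := h1
        rw [mem_sdiff] at hg
        exact ⟨g, hg.1, hg.2, by rw [hends, ih]; simp⟩
    refine ⟨∅, ∅, ?_, ?_, empty_subset _, empty_subset _, ?_, ?_⟩
    · intro u; simp [dg]
    · intro u; simp [dg]
    · rintro f _ (h1 | h1) <;> simp at h1
    · intro f hf hfS _ hreach
      exfalso
      obtain ⟨u, _, _, hends⟩ := exists_ends G f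
      have hu : u ∈ G.ends f := by rw [hends]; simp
      apply hv
      exact ⟨f, hf, hfS, by rw [← hiso u (hreach u hu)]; exact hu⟩

end Pool.Agent.H211R2.SCDC
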